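import Pool.Agent.J4H42.GP.Hom

/-!
# Project GP (helper78): S_CH (helper42)
-/

set_option autoImplicit false

open NumberField Module
open Pool.Agent.J4H78.GP

namespace Pool.Agent.J4H42.GP

section

variable {K K' L : Type} [Field K] [NumberField K] [Field K'] [NumberField K']
  [Field L] [NumberField L] [Algebra K L] [Algebra K' L]

/-- the norm of `L / K` of an element of `K'` -/
theorem norm_comp {p p' : ℕ} (hp : p.Prime) (hp' : p'.Prime) (hne : p ≠ p') (h2 : finrank ℚ K = 2)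
    (h2' : finrank ℚ K' = 2) (h4 : finrank ℚ L = 4) {s : K} {s' : K'} (hs : s ^ 2 = (p : K))
    (hs' : s' ^ 2 = (p' : K')) (x : K') :
    Algebra.norm K (algebraMap K' L x) = algebraMap ℚ K (Algebra.norm ℚ x) := by
  have hKL : finrank K L = 2 := by
    have := Module.finrank_mul_finrank ℚ K L
    rw [h2, h4] at this
    omega
  have hσ : (algebraMap K L s) ^ 2 = (p : L) := by rw [← map_pow, hs, map_natCast]
  have hσ' : (algebraMap K' L s') ^ 2 = (p' : L) := by rw [← map_pow, hs', map_natCast]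
  have hno : ∀ w : K, algebraMap K L w ≠ algebraMap K' L s' := by
    intro w hw
    obtain ⟨u, v, huv⟩ := quad_rep h2 (quad_ne hp hs) w
    rw [huv, map_add, map_mul, eq_ratCast, eq_ratCast, map_ratCast, map_ratCast] at hw
    obtain ⟨_, _, h3, _⟩ := ev_indep hp hp' hne hσ hσ' u v (-1) 0 (by
      push_cast
      linear_combination hw)
    norm_num at h3
  obtain ⟨u, v, huv⟩ := quad_rep h2' (quad_ne hp' hs') x
  have e1 : Algebra.norm ℚ x = u ^ 2 - p' * v ^ 2 := by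
    rw [huv]
    exact quad_norm h2' (quad_ne hp' hs') (by rw [hs', map_natCast]) u v
  have e2 : algebraMap K' L x = algebraMap K L (u : K) + algebraMap K L (v : K) *
      algebraMap K' L s' := by
    rw [huv, map_add, map_mul, eq_ratCast, eq_ratCast, map_ratCast, map_ratCast, map_ratCast,
      map_ratCast]
  rw [e1, e2, quad_norm hKL hno (m := (p' : K)) (by rw [hσ', map_natCast])]
  rw [eq_ratCast]
  push_cast
  ring

theorem intNorm_comp {p p' : ℕ} (hp : p.Prime) (hp' : p'.Prime) (hne : p ≠ p')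
    (h2 : finrank ℚ K = 2) (h2' : finrank ℚ K' = 2) (h4 : finrank ℚ L = 4) {s : K} {s' : K'}
    (hs : s ^ 2 = (p : K)) (hs' : s' ^ 2 = (p' : K')) (x : 𝓞 K') :
    Algebra.intNorm (𝓞 K) (𝓞 L) (algebraMap (𝓞 K') (𝓞 L) x) =
      algebraMap ℤ (𝓞 K) (Algebra.intNorm ℤ (𝓞 K') x) := by
  apply RingOfIntegers.ext
  change algebraMap (𝓞 K) K _ = algebraMap (𝓞 K) K _
  rw [Algebra.algebraMap_intNorm (L := L)]
  have e1 : algebraMap (𝓞 L) L (algebraMap (𝓞 K') (𝓞 L) x) =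
      algebraMap K' L (algebraMap (𝓞 K') K' x) := rfl
  rw [e1, norm_comp hp hp' hne h2 h2' h4 hs hs']
  have e2 : Algebra.norm ℚ (algebraMap (𝓞 K') K' x) =
      algebraMap ℤ ℚ (Algebra.intNorm ℤ (𝓞 K') x) := by
    rw [Algebra.algebraMap_intNorm (L := K')]
  rw [e2, ← IsScalarTower.algebraMap_apply ℤ ℚ K, ← IsScalarTower.algebraMap_apply ℤ (𝓞 K) K]

theorem relNorm_map {p p' : ℕ} (hp : p.Prime) (hp' : p'.Prime) (hne : p ≠ p')
    (h2 : finrank ℚ K = 2) (h2' : finrank ℚ K' = 2) (h4 : finrank ℚ L = 4) {s : K} {s' : K'}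
    (hs : s ^ 2 = (p : K)) (hs' : s' ^ 2 = (p' : K')) (𝔟 : Ideal (𝓞 K')) (hb : 𝔟 ≠ ⊥) :
    Ideal.relNorm (𝓞 K) (𝔟.map (algebraMap (𝓞 K') (𝓞 L))) =
      Ideal.span {((Ideal.absNorm 𝔟 : ℕ) : 𝓞 K)} := by
  have hKL' : finrank K' L = 2 := by
    have := Module.finrank_mul_finrank ℚ K' L
    rw [h2', h4] at this
    omega
  have hle : Ideal.span {((Ideal.absNorm 𝔟 : ℕ) : 𝓞 K)} ≤
      Ideal.relNorm (𝓞 K) (𝔟.map (algebraMap (𝓞 K') (𝓞 L))) := by
    have h1 : Ideal.map (algebraMap ℤ (𝓞 K)) (Ideal.relNorm ℤ 𝔟) =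
        Ideal.span {((Ideal.absNorm 𝔟 : ℕ) : 𝓞 K)} := by
      rw [Ideal.relNorm_int, Ideal.map_span, Set.image_singleton]
      congr 2
      rw [eq_intCast]
      push_cast
      rfl
    rw [← h1, Ideal.map_relNorm, Ideal.span_le]
    rintro _ ⟨x, hx, rfl⟩
    rw [Function.comp_apply, ← intNorm_comp hp hp' hne h2 h2' h4 hs hs', SetLike.mem_coe,
      ← Ideal.spanNorm_eq]
    exact Ideal.intNorm_mem_spanNorm _ (Ideal.mem_map_of_mem _ hx)
  have hfr : finrank (𝓞 K') (𝓞 L) = 2 := by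
    exact (IsFractionRing.finrank_eq (𝓞 K') K' (𝓞 L) L).symm.trans hKL'
  have hn : Ideal.absNorm (Ideal.relNorm (𝓞 K) (𝔟.map (algebraMap (𝓞 K') (𝓞 L)))) =
      (Ideal.absNorm 𝔟) ^ 2 := by
    rw [Ideal.absNorm_relNorm, Ideal.absNorm_algebraMap, hfr]
  have hn2 : Ideal.absNorm (Ideal.span {((Ideal.absNorm 𝔟 : ℕ) : 𝓞 K)}) =
      (Ideal.absNorm 𝔟) ^ 2 := by
    rw [Ideal.absNorm_span_natCast, RingOfIntegers.rank, h2]
  have hpos : Ideal.absNorm 𝔟 ≠ 0 := by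
    rwa [Ne, Ideal.absNorm_eq_zero_iff]
  obtain ⟨C, hC⟩ := Ideal.dvd_iff_le.mpr hle
  have h3 : Ideal.absNorm C = 1 := by
    have h4 := congrArg Ideal.absNorm hC
    rw [map_mul, hn, hn2] at h4
    have h5 : 0 < Ideal.absNorm 𝔟 ^ 2 := by positivity
    have h6 : Ideal.absNorm 𝔟 ^ 2 * 1 = Ideal.absNorm 𝔟 ^ 2 * Ideal.absNorm C := by
      rw [mul_one]; exact h4
    exact (Nat.eq_of_mul_eq_mul_left h5 h6).symm
  rw [Ideal.absNorm_eq_one_iff] at h3
  rw [hC, h3, Ideal.mul_top]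

end

theorem t_CH : S_CH := by
  intro p p' K K' L _ _ _ _ _ _ _ _ hB ψ ψ' hψ hψ'
  obtain ⟨hp, hp', hne, ⟨h2, s, hs⟩, ⟨h2', s', hs'⟩, h4⟩ := hB
  constructor
  · intro x hx
    change ψ (Ideal.relNorm (𝓞 K) (Ideal.span {x})) * ψ' (Ideal.relNorm (𝓞 K') (Ideal.span {x})) = 1
    rw [Ideal.relNorm_singleton, Ideal.relNorm_singleton, hψ _ (Algebra.intNorm_ne_zero.mpr hx),
      hψ' _ (Algebra.intNorm_ne_zero.mpr hx), one_mul]
  · rintro ⟨𝔟, h0, h1⟩
    have hKL' : finrank K' L = 2 := by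
      have := Module.finrank_mul_finrank ℚ K' L
      rw [h2', h4] at this
      omega
    have hfr : finrank (𝓞 K') (𝓞 L) = 2 := by
      exact (IsFractionRing.finrank_eq (𝓞 K') K' (𝓞 L) L).symm.trans hKL'
    refine ⟨Ideal.map (algebraMap (𝓞 K') (𝓞 L)) 𝔟, ?_, ?_⟩
    · rw [Ne, Ideal.map_eq_bot_iff_of_injective (FaithfulSMul.algebraMap_injective (𝓞 K') (𝓞 L))]
      exact h0
    · change ψ (Ideal.relNorm (𝓞 K) _) * ψ' (Ideal.relNorm (𝓞 K') _) ≠ 1
      rw [relNorm_map hp hp' hne h2 h2' h4 hs hs' 𝔟 h0, hψ _ (by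
        rw [Nat.cast_ne_zero, Ne, Ideal.absNorm_eq_zero_iff]
        exact h0), one_mul, Ideal.relNorm_algebraMap, hfr, map_pow]
      exact h1

end Pool.Agent.J4H42.GP
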