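import Pool.Agent.J4H42.GP.Hom

/-!
# Project GP (helper78): S_FLD (helper42)
-/

set_option autoImplicit false
set_option linter.unusedSimpArgs false
set_option linter.style.haveILetI false

open NumberField Module
open Pool.Agent.J4H78.GP

namespace Pool.Agent.J4H42.GP

section Disc

variable {L : Type} [Field L] [NumberField L]

theorem bq_discr {p p' : ℕ} {σ σ' : L}
    (hσ : σ ^ 2 = (p : L)) (hσ' : σ' ^ 2 = (p' : L)) {b : Basis (Fin 4) ℚ L} (h0 : b 0 = 1)
    (h1 : b 1 = σ) (h2 : b 2 = σ') (h3 : b 3 = σ * σ') :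
    Algebra.discr ℚ (b : Fin 4 → L) = 256 * (p : ℚ) ^ 2 * (p' : ℚ) ^ 2 := by
  have tr := bq_trace hσ hσ' h0 h1 h2 h3
  have hd : Algebra.traceMatrix ℚ (b : Fin 4 → L) =
      Matrix.diagonal ![(4 : ℚ), 4 * p, 4 * p', 4 * (p * p')] := by
    ext i j
    rw [Algebra.traceMatrix_apply, Algebra.traceForm_apply]
    have key : ∀ (x y z w : ℚ), b i * b j = (x : L) + y * σ + z * σ' + w * (σ * σ') →
        Algebra.trace ℚ L (b i * b j) = 4 * x := by
      intro x y z w h
      rw [h, tr]
    fin_cases i <;> fin_cases j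
    · simp only [Fin.zero_eta, Fin.mk_one, Fin.reduceFinMk] at key ⊢
      rw [key 1 0 0 0 (by rw [h0]; push_cast; ring)]
      simp
    · simp only [Fin.zero_eta, Fin.mk_one, Fin.reduceFinMk] at key ⊢
      rw [key 0 1 0 0 (by rw [h0, h1]; push_cast; ring)]
      simp
    · simp only [Fin.zero_eta, Fin.mk_one, Fin.reduceFinMk] at key ⊢
      rw [key 0 0 1 0 (by rw [h0, h2]; push_cast; ring)]
      simp
    · simp only [Fin.zero_eta, Fin.mk_one, Fin.reduceFinMk] at key ⊢
      rw [key 0 0 0 1 (by rw [h0, h3]; push_cast; ring)]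
      simp
    · simp only [Fin.zero_eta, Fin.mk_one, Fin.reduceFinMk] at key ⊢
      rw [key 0 1 0 0 (by rw [h0, h1]; push_cast; ring)]
      simp
    · simp only [Fin.zero_eta, Fin.mk_one, Fin.reduceFinMk] at key ⊢
      rw [key p 0 0 0 (by rw [h1]; push_cast; linear_combination hσ)]
      simp
    · simp only [Fin.zero_eta, Fin.mk_one, Fin.reduceFinMk] at key ⊢
      rw [key 0 0 0 1 (by rw [h1, h2]; push_cast; ring)]
      simp
    · simp only [Fin.zero_eta, Fin.mk_one, Fin.reduceFinMk] at key ⊢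
      rw [key 0 0 p 0 (by rw [h1, h3]; push_cast; linear_combination σ' * hσ)]
      simp
    · simp only [Fin.zero_eta, Fin.mk_one, Fin.reduceFinMk] at key ⊢
      rw [key 0 0 1 0 (by rw [h0, h2]; push_cast; ring)]
      simp
    · simp only [Fin.zero_eta, Fin.mk_one, Fin.reduceFinMk] at key ⊢
      rw [key 0 0 0 1 (by rw [h1, h2]; push_cast; ring)]
      simp
    · simp only [Fin.zero_eta, Fin.mk_one, Fin.reduceFinMk] at key ⊢
      rw [key p' 0 0 0 (by rw [h2]; push_cast; linear_combination hσ')]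
      simp
    · simp only [Fin.zero_eta, Fin.mk_one, Fin.reduceFinMk] at key ⊢
      rw [key 0 p' 0 0 (by rw [h2, h3]; push_cast; linear_combination σ * hσ')]
      simp
    · simp only [Fin.zero_eta, Fin.mk_one, Fin.reduceFinMk] at key ⊢
      rw [key 0 0 0 1 (by rw [h0, h3]; push_cast; ring)]
      simp
    · simp only [Fin.zero_eta, Fin.mk_one, Fin.reduceFinMk] at key ⊢
      rw [key 0 0 p 0 (by rw [h1, h3]; push_cast; linear_combination σ' * hσ)]
      simp
    · simp only [Fin.zero_eta, Fin.mk_one, Fin.reduceFinMk] at key ⊢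
      rw [key 0 p' 0 0 (by rw [h2, h3]; push_cast; linear_combination σ * hσ')]
      simp
    · simp only [Fin.zero_eta, Fin.mk_one, Fin.reduceFinMk] at key ⊢
      rw [key (p * p') 0 0 0 (by rw [h3]; push_cast; linear_combination σ' ^ 2 * hσ + p * hσ')]
      simp
  rw [Algebra.discr_def, hd, Matrix.det_diagonal, Fin.prod_univ_four]
  simp
  ring

/-- the discriminant of the field is at most that of a basis of integers -/
theorem discr_le_basis {n : ℕ} (b : Basis (Fin n) ℚ L) (B : Fin n → 𝓞 L)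
    (hB : ∀ i, algebraMap (𝓞 L) L (B i) = b i) :
    |(discr L : ℝ)| ≤ |((Algebra.discr ℚ (b : Fin n → L) : ℚ) : ℝ)| := by
  have hc : Fintype.card (Module.Free.ChooseBasisIndex ℤ (𝓞 L)) = n := by
    rw [← Module.finrank_eq_card_basis (RingOfIntegers.basis L), RingOfIntegers.rank,
      Module.finrank_eq_card_basis b, Fintype.card_fin]
  let e : Module.Free.ChooseBasisIndex ℤ (𝓞 L) ≃ Fin n := Fintype.equivFinOfCardEq hc
  let c : Module.Basis (Fin n) ℚ L := (integralBasis L).reindex e
  let M : Matrix (Fin n) (Fin n) ℤ := fun i j =>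
    (RingOfIntegers.basis L).repr (B j) (e.symm i)
  have hM : c.toMatrix b = M.map (Int.castRingHom ℚ) := by
    ext i j
    rw [Module.Basis.toMatrix_apply, Matrix.map_apply]
    change ((integralBasis L).reindex e).repr (b j) i = _
    rw [Module.Basis.repr_reindex_apply, ← hB]
    exact integralBasis_repr_apply L (B j) (e.symm i)
  have h1 : Algebra.discr ℚ (b : Fin n → L) = (M.det : ℚ) ^ 2 * (discr L : ℚ) := by
    have h2 := Algebra.discr_of_matrix_vecMul (A := ℚ) (c : Fin n → L)
      (c.toMatrix b)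
    rw [Module.Basis.toMatrix_map_vecMul] at h2
    rw [h2, hM]
    have h3 : (M.map (Int.castRingHom ℚ)).det = (M.det : ℚ) := by
      have := (RingHom.map_det (Int.castRingHom ℚ) M)
      rw [RingHom.mapMatrix_apply] at this
      rw [← this]
      rfl
    have h4 : Algebra.discr ℚ (c : Fin n → L) = (discr L : ℚ) := by
      rw [coe_discr]
      have := Algebra.discr_reindex ℚ (integralBasis L) e
      rw [← this]
      congr 1
      exact Module.Basis.coe_reindex _ _
    rw [h3, h4]
  have hne : M.det ≠ 0 := by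
    intro h0
    have h2 := Algebra.discr_not_zero_of_basis ℚ b
    rw [h1, h0] at h2
    simp at h2
  generalize M.det = m at h1 hne
  rw [h1]
  push_cast
  rw [abs_mul, abs_pow]
  have h4 : 1 ≤ |(m : ℝ)| ^ 2 := by
    have : (1 : ℝ) ≤ |(m : ℝ)| := by exact_mod_cast Int.one_le_abs hne
    nlinarith
  have h5 := abs_nonneg (discr L : ℝ)
  nlinarith

end Disc

/-- the square roots of positive numbers are real -/
theorem conj_of_sq {z : ℂ} {p : ℕ} (hz : z ^ 2 = (p : ℂ)) : (starRingEnd ℂ) z = z := by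
  have h1 : z ^ 2 = ((Real.sqrt p : ℝ) : ℂ) ^ 2 := by
    rw [hz, ← Complex.ofReal_pow, Real.sq_sqrt (Nat.cast_nonneg p), Complex.ofReal_natCast]
  rcases sq_eq_sq_iff_eq_or_eq_neg.mp h1 with h | h
  · rw [h, Complex.conj_ofReal]
  · rw [h, map_neg, Complex.conj_ofReal]

theorem bq_real {L : Type} [Field L] [NumberField L] {p p' : ℕ} {σ σ' : L}
    (hσ : σ ^ 2 = (p : L)) (hσ' : σ' ^ 2 = (p' : L)) {b : Basis (Fin 4) ℚ L} (h0 : b 0 = 1)
    (h1 : b 1 = σ) (h2 : b 2 = σ') (h3 : b 3 = σ * σ') : IsTotallyReal L := by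
  refine ⟨fun v => ?_⟩
  rw [InfinitePlace.isReal_iff, ComplexEmbedding.isReal_iff]
  ext X
  rw [ComplexEmbedding.conjugate_coe_eq]
  obtain ⟨x, y, z, w, hX⟩ := bq_rep h0 h1 h2 h3 X
  set φ := v.embedding
  have e1 : (starRingEnd ℂ) (φ σ) = φ σ := conj_of_sq (by rw [← map_pow, hσ, map_natCast])
  have e2 : (starRingEnd ℂ) (φ σ') = φ σ' := conj_of_sq (by rw [← map_pow, hσ', map_natCast])
  rw [hX]
  simp only [map_add, map_mul, map_ratCast, e1, e2]

theorem t_FLD : S_FLD := by
  intro p p' K K' _ _ _ _ hp hp' hne hK hK'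
  obtain ⟨h2, s, hs⟩ := hK
  obtain ⟨h2', s', hs'⟩ := hK'
  obtain ⟨e0⟩ : Nonempty (K →+* ℂ) := inferInstance
  obtain ⟨e0'⟩ : Nonempty (K' →+* ℂ) := inferInstance
  let e : K →ₐ[ℚ] ℂ := e0.toRatAlgHom
  let e' : K' →ₐ[ℚ] ℂ := e0'.toRatAlgHom
  let E : IntermediateField ℚ ℂ := e.fieldRange
  let E' : IntermediateField ℚ ℂ := e'.fieldRange
  haveI : FiniteDimensional ℚ E :=
    LinearEquiv.finiteDimensional (AlgEquiv.ofInjectiveField e).toLinearEquiv
  haveI : FiniteDimensional ℚ E' :=
    LinearEquiv.finiteDimensional (AlgEquiv.ofInjectiveField e').toLinearEquiv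
  have d1 : finrank ℚ E = 2 := by
    rw [← h2]
    exact (LinearEquiv.finrank_eq (AlgEquiv.ofInjectiveField e).toLinearEquiv).symm
  have d2 : finrank ℚ E' = 2 := by
    rw [← h2']
    exact (LinearEquiv.finrank_eq (AlgEquiv.ofInjectiveField e').toLinearEquiv).symm
  haveI : FiniteDimensional ℚ (E ⊔ E' : IntermediateField ℚ ℂ) :=
    IntermediateField.finiteDimensional_sup E E'
  let L : Type := (E ⊔ E' : IntermediateField ℚ ℂ)
  letI : Field L := inferInstanceAs (Field (E ⊔ E' : IntermediateField ℚ ℂ))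
  haveI : CharZero L := inferInstanceAs (CharZero (E ⊔ E' : IntermediateField ℚ ℂ))
  haveI : FiniteDimensional ℚ L :=
    inferInstanceAs (FiniteDimensional ℚ (E ⊔ E' : IntermediateField ℚ ℂ))
  haveI : NumberField L := ⟨⟩
  let f : K →ₐ[ℚ] (E ⊔ E' : IntermediateField ℚ ℂ) :=
    (IntermediateField.inclusion le_sup_left).comp (AlgEquiv.ofInjectiveField e).toAlgHom
  let f' : K' →ₐ[ℚ] (E ⊔ E' : IntermediateField ℚ ℂ) :=
    (IntermediateField.inclusion le_sup_right).comp (AlgEquiv.ofInjectiveField e').toAlgHom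
  let F : K →+* L := f.toRingHom
  let F' : K' →+* L := f'.toRingHom
  letI : Algebra K L := F.toAlgebra
  letI : Algebra K' L := F'.toAlgebra
  have hσ : (F s) ^ 2 = (p : L) := by rw [← map_pow, hs, map_natCast]
  have hσ' : (F' s') ^ 2 = (p' : L) := by rw [← map_pow, hs', map_natCast]
  have h4le : finrank ℚ L ≤ 4 := by
    have h5 := IntermediateField.finrank_sup_le E E'
    rw [d1, d2] at h5
    exact h5
  have h4ge : 4 ≤ finrank ℚ L := by
    have hli : LinearIndependent ℚ ![(1 : L), F s, F' s', F s * F' s'] := by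
      rw [Fintype.linearIndependent_iff]
      intro g hg
      rw [Fin.sum_univ_four] at hg
      have h1 := ev_indep hp hp' hne hσ hσ' (g 0) (g 1) (g 2) (g 3) (by
        simp only [Algebra.smul_def, eq_ratCast] at hg
        simpa using hg)
      obtain ⟨a0, a1, a2, a3⟩ := h1
      intro i
      fin_cases i
      · exact a0
      · exact a1
      · exact a2
      · exact a3
    have := hli.fintype_card_le_finrank
    rwa [Fintype.card_fin] at this
  have h4 : finrank ℚ L = 4 := le_antisymm h4le h4ge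
  obtain ⟨b, b0, b1, b2, b3⟩ := bq_basis hp hp' hne hσ hσ' h4
  obtain ⟨S, hS0, hS⟩ := exists_intRoot hσ
  obtain ⟨S', hS0', hS'⟩ := exists_intRoot hσ'
  refine ⟨L, inferInstance, inferInstance, inferInstance, inferInstance, ?_, ?_, ?_⟩
  · exact ⟨hp, hp', hne, ⟨h2, s, hs⟩, ⟨h2', s', hs'⟩, h4⟩
  · exact bq_real hσ hσ' b0 b1 b2 b3
  · have h6 := discr_le_basis b ![1, S, S', S * S'] (by
      intro i
      fin_cases i
      · exact (map_one _).trans b0.symm
      · exact hS0.trans b1.symm
      · exact hS0'.trans b2.symm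
      · refine Eq.trans ?_ b3.symm
        change algebraMap (𝓞 L) L (S * S') = _
        rw [map_mul]
        exact congrArg₂ (· * ·) hS0 hS0')
    refine h6.trans ?_
    rw [bq_discr hσ hσ' b0 b1 b2 b3]
    push_cast
    rw [abs_of_nonneg (by positivity)]

end Pool.Agent.J4H42.GP
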