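import Pool.Agent.J4H42.GP.Qd2
import Pool.Agent.J4H78.GP.Stm

/-!
# Project GP (helper78): S_HOM (helper42)
-/

set_option autoImplicit false

open NumberField Module
open Pool.Agent.J4H78.GP

namespace Pool.Agent.J4H42.GP

section

variable {p p' : ℕ} {K K' L : Type} [Field K] [NumberField K] [Field K'] [NumberField K']
  [Field L] [NumberField L] [Algebra K L] [Algebra K' L]

/-- the square root as an integer of the field -/
theorem exists_intRoot {p : ℕ} {K : Type} [Field K] [NumberField K] {s : K} (hs : s ^ 2 = (p : K)) :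
    ∃ S : 𝓞 K, (S : K) = s ∧ S ^ 2 = (p : 𝓞 K) := by
  have iσ : IsIntegral ℤ s := by
    refine IsIntegral.of_pow (n := 2) (by norm_num) ?_
    rw [hs]
    exact isIntegral_natCast _
  obtain ⟨S, hS⟩ : ∃ S : 𝓞 K, algebraMap (𝓞 K) K S = s :=
    (IsIntegralClosure.isIntegral_iff (A := 𝓞 K)).mp iσ
  refine ⟨S, hS, ?_⟩
  apply RingOfIntegers.ext
  change algebraMap (𝓞 K) K _ = algebraMap (𝓞 K) K _
  rw [map_pow, map_natCast, hS]
  exact hs

/-- a ring homomorphism of `𝓞 K` into a field, `K = ℚ(s)` embedded in the biquadratic field -/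
theorem res_hom (hp : p.Prime) (hp' : p'.Prime) (hne : p ≠ p') {σ σ' : L}
    (hσ : σ ^ 2 = (p : L)) (hσ' : σ' ^ 2 = (p' : L)) (h2 : finrank ℚ K = 2) {S : 𝓞 K}
    (hS : S ^ 2 = (p : 𝓞 K)) (hS1 : algebraMap K L (algebraMap (𝓞 K) K S) = σ) (Z : 𝓞 K)
    (n : Fin 4 → ℤ)
    (hn : ((4 * p * p' : ℤ) : L) * algebraMap K L (algebraMap (𝓞 K) K Z) = evz σ σ' n) :
    ((4 * p * p' : ℤ) : 𝓞 K) * Z = (n 0 : 𝓞 K) + (n 1 : 𝓞 K) * S ∧ n 2 = 0 ∧ n 3 = 0 := by
  have hs : (algebraMap (𝓞 K) K S) ^ 2 = (p : K) := by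
    rw [← map_pow, hS, map_natCast]
  obtain ⟨u, v, huv⟩ := quad_rep h2 (quad_ne hp hs) (algebraMap (𝓞 K) K Z)
  have h1 : algebraMap K L (algebraMap (𝓞 K) K Z) = (u : L) + v * σ := by
    rw [huv, map_add, map_mul, hS1, eq_ratCast, eq_ratCast, map_ratCast, map_ratCast]
  rw [h1] at hn
  unfold evz at hn
  obtain ⟨a0, a1, a2, a3⟩ := ev_indep hp hp' hne hσ hσ' (4 * p * p' * u - n 0)
    (4 * p * p' * v - n 1) (- n 2) (- n 3) (by
      push_cast at hn ⊢
      linear_combination hn)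
  have b2 : n 2 = 0 := by
    have := neg_eq_zero.mp a2
    exact_mod_cast this
  have b3 : n 3 = 0 := by
    have := neg_eq_zero.mp a3
    exact_mod_cast this
  refine ⟨?_, b2, b3⟩
  apply RingOfIntegers.ext
  change algebraMap (𝓞 K) K _ = algebraMap (𝓞 K) K _
  simp only [map_add, map_mul, map_intCast]
  push_cast
  rw [huv, eq_ratCast, eq_ratCast]
  have c0 : (4 * p * p' * u : K) - n 0 = 0 := by exact_mod_cast congrArg (fun t : ℚ => (t : K)) a0
  have c1 : (4 * p * p' * v : K) - n 1 = 0 := by exact_mod_cast congrArg (fun t : ℚ => (t : K)) a1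
  linear_combination c0 + c1 * algebraMap (𝓞 K) K S

end

theorem t_HOM : S_HOM := by
  intro p p' K K' L _ _ _ _ _ _ _ _ hB q r hq hr hqd
  obtain ⟨hp, hp', hne, ⟨h2, s, hs⟩, ⟨h2', s', hs'⟩, h4⟩ := hB
  obtain ⟨S, hS0, hS⟩ := exists_intRoot hs
  obtain ⟨S', hS0', hS'⟩ := exists_intRoot hs'
  set σ : L := algebraMap K L s with hσd
  set σ' : L := algebraMap K' L s' with hσd'
  have hσ : σ ^ 2 = (p : L) := by rw [hσd, ← map_pow, hs, map_natCast]
  have hσ' : σ' ^ 2 = (p' : L) := by rw [hσd', ← map_pow, hs', map_natCast]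
  set k := GaloisField q r with hk
  have hN : ((4 * p * p' : ℤ) : k) ≠ 0 := by
    intro h0
    have h1 : ((4 * p * p' : ℕ) : k) = 0 := by
      have : (((4 * p * p' : ℕ) : ℤ) : k) = 0 := by
        push_cast at h0 ⊢
        exact h0
      rw [Int.cast_natCast] at this
      exact this
    have h2 : q ∣ 4 * p * p' := (CharP.cast_eq_zero_iff k q _).mp h1
    have h3 : q ∣ 2 * (2 * p * p') := by
      have e : 4 * p * p' = 2 * (2 * p * p') := by ring
      rwa [e] at h2
    rcases (Nat.Prime.dvd_mul hq.out).mp h3 with h | h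
    · exact hqd (Dvd.dvd.mul_right (Dvd.dvd.mul_right h p) p')
    · exact hqd h
  have hS1 : algebraMap K L (algebraMap (𝓞 K) K S) = σ := congrArg (algebraMap K L) hS0
  have hS1' : algebraMap K' L (algebraMap (𝓞 K') K' S') = σ' := congrArg (algebraMap K' L) hS0'
  have coeL : ∀ Z : 𝓞 K, algebraMap (𝓞 L) L (algebraMap (𝓞 K) (𝓞 L) Z) =
      algebraMap K L (algebraMap (𝓞 K) K Z) := fun Z => rfl
  have coeL' : ∀ Z : 𝓞 K', algebraMap (𝓞 L) L (algebraMap (𝓞 K') (𝓞 L) Z) =
      algebraMap K' L (algebraMap (𝓞 K') K' Z) := fun Z => rfl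
  constructor
  · intro φ₁ φ₂ h
    obtain ⟨ha, hb⟩ := Prod.mk.inj h
    ext X
    obtain ⟨n, hn⟩ := int_coords hp hp' hne hσ hσ' h4 X.isIntegral_coe
    have h1 : ((4 * p * p' : ℤ) : 𝓞 L) * X = evz (algebraMap (𝓞 K) (𝓞 L) S)
        (algebraMap (𝓞 K') (𝓞 L) S') n := by
      apply RingOfIntegers.ext
      change algebraMap (𝓞 L) L _ = algebraMap (𝓞 L) L _
      unfold evz at hn ⊢
      simp only [map_add, map_mul, map_intCast]
      rw [coeL, coeL', hS1, hS1']
      exact hn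
    have h2 : ∀ φ : 𝓞 L →+* k, ((4 * p * p' : ℤ) : k) * φ X =
        evz (φ (algebraMap (𝓞 K) (𝓞 L) S)) (φ (algebraMap (𝓞 K') (𝓞 L) S')) n := by
      intro φ
      have := congrArg φ h1
      unfold evz at this ⊢
      simpa only [map_add, map_mul, map_intCast] using this
    have h3 := h2 φ₁
    rw [show φ₁ (algebraMap (𝓞 K) (𝓞 L) S) = φ₂ (algebraMap (𝓞 K) (𝓞 L) S) from
      congrArg (fun f : 𝓞 K →+* k => f S) ha,
      show φ₁ (algebraMap (𝓞 K') (𝓞 L) S') = φ₂ (algebraMap (𝓞 K') (𝓞 L) S') from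
      congrArg (fun f : 𝓞 K' →+* k => f S') hb, ← h2 φ₂] at h3
    exact mul_left_cancel₀ hN h3
  · rintro ⟨φ₁, φ₂⟩
    have ht : (φ₁ S) ^ 2 = (p : k) := by rw [← map_pow, hS, map_natCast]
    have ht' : (φ₂ S') ^ 2 = (p' : k) := by rw [← map_pow, hS', map_natCast]
    obtain ⟨φ, hφ⟩ := exists_hom hp hp' hne hσ hσ' h4 ht ht' hN
    refine ⟨φ, ?_⟩
    have hA : φ.comp (algebraMap (𝓞 K) (𝓞 L)) = φ₁ := by
      ext Z
      obtain ⟨n, hn⟩ := int_coords hp hp' hne hσ hσ' h4
        (algebraMap (𝓞 K) (𝓞 L) Z).isIntegral_coe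
      have h5 := hφ _ n hn
      rw [coeL] at hn
      obtain ⟨h6, h7, h8⟩ := res_hom hp hp' hne hσ hσ' h2 hS hS1 Z n hn
      have h9 := congrArg φ₁ h6
      simp only [map_add, map_mul, map_intCast] at h9
      refine mul_left_cancel₀ hN ?_
      rw [RingHom.comp_apply, h5, h9]
      unfold evz
      rw [h7, h8]
      push_cast
      ring
    have hA' : φ.comp (algebraMap (𝓞 K') (𝓞 L)) = φ₂ := by
      ext Z
      obtain ⟨n, hn⟩ := int_coords hp hp' hne hσ hσ' h4
        (algebraMap (𝓞 K') (𝓞 L) Z).isIntegral_coe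
      have h5 := hφ _ n hn
      rw [coeL'] at hn
      obtain ⟨h6, h7, h8⟩ := res_hom (p := p') (p' := p) hp' hp hne.symm hσ' hσ h2' hS' hS1' Z
        ![n 0, n 2, n 1, n 3] (by
          unfold evz at hn ⊢
          simp only [Matrix.cons_val_zero, Matrix.cons_val_one, Matrix.cons_val_two,
            Matrix.cons_val_three, Matrix.tail_cons, Matrix.head_cons, Matrix.cons_val]
          push_cast at hn ⊢
          linear_combination hn)
      have h9 := congrArg φ₂ h6
      simp only [map_add, map_mul, map_intCast] at h9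
      simp only [Matrix.cons_val_zero, Matrix.cons_val_one, Matrix.cons_val_two,
            Matrix.cons_val_three, Matrix.tail_cons, Matrix.head_cons, Matrix.cons_val] at h7 h8 h9
      refine mul_left_cancel₀ hN ?_
      have hNe : ((4 * p * p' : ℤ) : GaloisField q r) = 4 * p' * p := by push_cast; ring
      rw [RingHom.comp_apply, h5]
      unfold evz
      rw [h7, h8]
      push_cast at h9
      rw [Int.cast_zero]
      have h10 : ((4 * p * p' : ℤ) : k) * φ₂ Z = ↑(n 0) + ↑(n 2) * φ₂ S' := by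
        rw [← h9]
        congr 1
      rw [h10]
      ring
    exact Prod.ext hA hA'

end Pool.Agent.J4H42.GP
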