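import Mathlib

/-!
# Project GP (helper78): quadratic and biquadratic fields, elementary part (helper42)
-/

set_option autoImplicit false

open NumberField Module

namespace Pool.Agent.J4H42.GP

section Quad

variable {F E : Type*} [Field F] [Field E] [Algebra F E]

/-- the basis `1, y` of a quadratic extension -/
theorem quad_basis (h2 : finrank F E = 2) {y : E} (hy : ∀ u : F, algebraMap F E u ≠ y) :
    ∃ b : Basis (Fin 2) F E, b 0 = 1 ∧ b 1 = y := by
  have hli : LinearIndependent F ![(1 : E), y] := by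
    rw [LinearIndependent.pair_iff]
    intro s t h
    have ht : t = 0 := by
      by_contra ht
      refine hy (-(t⁻¹ * s)) ?_
      have h1 : algebraMap F E t ≠ 0 := by
        rwa [Ne, FaithfulSMul.algebraMap_eq_zero_iff]
      rw [Algebra.smul_def, Algebra.smul_def, mul_one] at h
      rw [map_neg, map_mul, map_inv₀]
      field_simp
      linear_combination -h
    refine ⟨?_, ht⟩
    rw [ht, zero_smul, add_zero, Algebra.smul_def, mul_one] at h
    rwa [FaithfulSMul.algebraMap_eq_zero_iff] at h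
  refine ⟨basisOfLinearIndependentOfCardEqFinrank hli (by rw [h2]; rfl), ?_, ?_⟩
  · rw [coe_basisOfLinearIndependentOfCardEqFinrank]; rfl
  · rw [coe_basisOfLinearIndependentOfCardEqFinrank]; rfl

theorem quad_rep (h2 : finrank F E = 2) {y : E} (hy : ∀ u : F, algebraMap F E u ≠ y) (x : E) :
    ∃ u v : F, x = algebraMap F E u + algebraMap F E v * y := by
  obtain ⟨b, h0, h1⟩ := quad_basis h2 hy
  refine ⟨b.repr x 0, b.repr x 1, ?_⟩
  conv_lhs => rw [← b.sum_repr x]
  rw [Fin.sum_univ_two, h0, h1, Algebra.smul_def, Algebra.smul_def, mul_one]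

theorem quad_norm (h2 : finrank F E = 2) {y : E} (hy : ∀ u : F, algebraMap F E u ≠ y) {m : F}
    (hm : y ^ 2 = algebraMap F E m) (u v : F) :
    Algebra.norm F (algebraMap F E u + algebraMap F E v * y) = u ^ 2 - m * v ^ 2 := by
  obtain ⟨b, h0, h1⟩ := quad_basis h2 hy
  rw [Algebra.norm_eq_matrix_det b, Matrix.det_fin_two]
  simp only [Algebra.leftMulMatrix_eq_repr_mul]
  have e0 : (algebraMap F E u + algebraMap F E v * y) * b 0 = u • b 0 + v • b 1 := by
    rw [h0, h1, Algebra.smul_def, Algebra.smul_def]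
    ring
  have e1 : (algebraMap F E u + algebraMap F E v * y) * b 1 = (v * m) • b 0 + u • b 1 := by
    rw [h0, h1, Algebra.smul_def, Algebra.smul_def, map_mul, ← hm]
    ring
  rw [e0, e1]
  simp only [map_add, map_smul, Basis.repr_self, Finsupp.add_apply, Finsupp.smul_apply,
    smul_eq_mul, Finsupp.single_apply]
  simp
  ring

end Quad

theorem not_sq_rat {p : ℕ} (hp : p.Prime) (u : ℚ) : u ^ 2 ≠ (p : ℚ) := by
  intro h
  have h1 : IsSquare ((p : ℕ) : ℚ) := ⟨u, by rw [← h, sq]⟩
  rw [Rat.isSquare_natCast_iff] at h1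
  exact hp.prime.irreducible.not_isSquare h1

theorem not_sq_rat2 {p p' : ℕ} (hp : p.Prime) (hp' : p'.Prime) (hne : p ≠ p') (u : ℚ) :
    u ^ 2 ≠ (p : ℚ) * p' := by
  intro h
  have h1 : IsSquare ((p * p' : ℕ) : ℚ) := ⟨u, by push_cast; rw [← h, sq]⟩
  rw [Rat.isSquare_natCast_iff] at h1
  obtain ⟨n, hn⟩ := h1
  have h2 : p ∣ n := by
    have : p ∣ n * n := ⟨p', hn.symm⟩
    rcases hp.dvd_mul.mp this with h | h <;> exact h
  obtain ⟨k, rfl⟩ := h2
  have h3 : p' = p * (k * k) := by
    have := hp.pos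
    refine Nat.eq_of_mul_eq_mul_left this ?_
    rw [hn]; ring
  have h4 : p ∣ p' := ⟨_, h3⟩
  exact hne ((Nat.prime_dvd_prime_iff_eq hp hp').mp h4)

section Quad2

variable {K : Type*} [Field K] [NumberField K]

theorem quad_ne {p : ℕ} (hp : p.Prime) {s : K} (hs : s ^ 2 = (p : K)) (u : ℚ) :
    algebraMap ℚ K u ≠ s := by
  intro h
  refine not_sq_rat hp u ?_
  have : ((u ^ 2 : ℚ) : K) = ((p : ℚ) : K) := by
    push_cast
    rw [← hs, ← h, eq_ratCast]
  exact_mod_cast this

end Quad2

/-- the four coordinates -/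
def ev {A : Type*} [CommRing A] (t t' : A) (n : Fin 4 → A) : A :=
  n 0 + n 1 * t + n 2 * t' + n 3 * (t * t')

section Biquad

variable {L : Type*} [Field L] [NumberField L]

theorem ev_indep {p p' : ℕ} (hp : p.Prime) (hp' : p'.Prime) (hne : p ≠ p') {σ σ' : L}
    (hσ : σ ^ 2 = (p : L)) (hσ' : σ' ^ 2 = (p' : L)) (a b c d : ℚ)
    (h : (a : L) + b * σ + c * σ' + d * (σ * σ') = 0) : a = 0 ∧ b = 0 ∧ c = 0 ∧ d = 0 := by
  have irr : ∀ u v : ℚ, (u : L) + v * σ = 0 → u = 0 ∧ v = 0 := by
    intro u v huv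
    have hv : v = 0 := by
      by_contra hv
      refine quad_ne hp hσ (-(v⁻¹ * u)) ?_
      have h1 : (v : L) ≠ 0 := by exact_mod_cast hv
      rw [eq_ratCast]
      push_cast
      field_simp
      linear_combination -huv
    refine ⟨?_, hv⟩
    rw [hv] at huv
    simpa using huv
  have hcd : c = 0 ∧ d = 0 := by
    by_contra hcd
    -- `c + d σ ≠ 0`
    have h0 : c ^ 2 - p * d ^ 2 ≠ 0 := by
      intro h0
      by_cases hd : d = 0
      · apply hcd
        rw [hd] at h0
        refine ⟨?_, hd⟩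
        simpa using h0
      · refine not_sq_rat hp (c / d) ?_
        rw [div_pow]
        field_simp
        linear_combination h0
    set N : ℚ := c ^ 2 - p * d ^ 2 with hN
    have hNL : (N : L) ≠ 0 := by exact_mod_cast h0
    -- `N σ' = - (a + b σ)(c - d σ)`
    set e : ℚ := -(a * c - p * b * d) / N with he
    set f : ℚ := -(b * c - a * d) / N with hf
    have h1 : σ' = (e : L) + f * σ := by
      have e1 : (N : L) * σ' = -(((a * c - p * b * d : ℚ) : L) + ((b * c - a * d : ℚ) : L) * σ) := by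
        rw [hN]; push_cast
        linear_combination (c - d * σ) * h + (b * d + d ^ 2 * σ') * hσ
      have e2 : (e : L) = -((a * c - p * b * d : ℚ) : L) / N := by
        rw [he]; push_cast; ring
      have e3 : (f : L) = -((b * c - a * d : ℚ) : L) / N := by
        rw [hf]; push_cast; ring
      rw [e2, e3]
      field_simp
      push_cast at e1 ⊢
      linear_combination e1
    have h2 : ((e ^ 2 + p * f ^ 2 - p' : ℚ) : L) + ((2 * e * f : ℚ) : L) * σ = 0 := by
      rw [h1] at hσ'
      push_cast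
      linear_combination hσ' - f ^ 2 * hσ
    obtain ⟨h3, h4⟩ := irr _ _ h2
    rcases mul_eq_zero.mp h4 with h5 | h5
    · have h6 : e = 0 := by linarith
      rw [h6] at h3
      refine not_sq_rat2 hp hp' hne (p * f) ?_
      linear_combination (p : ℚ) * h3
    · rw [h5] at h3
      refine not_sq_rat hp' e ?_
      linear_combination h3
  obtain ⟨hc, hd⟩ := hcd
  rw [hc, hd] at h
  have h1 : (a : L) + b * σ = 0 := by
    simpa using h
  obtain ⟨h2, h3⟩ := irr _ _ h1
  exact ⟨h2, h3, hc, hd⟩

end Biquad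

end Pool.Agent.J4H42.GP
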