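import Pool.Agent.J4H42.GP.Qd

/-!
# Project GP (helper78): the biquadratic field (helper42)
-/

set_option autoImplicit false

open NumberField Module

namespace Pool.Agent.J4H42.GP

/-- the four coordinates -/
def evz {A : Type*} [CommRing A] (t t' : A) (n : Fin 4 → ℤ) : A :=
  (n 0 : A) + n 1 * t + n 2 * t' + n 3 * (t * t')

/-- the product in coordinates -/
def mu (p p' : ℤ) (m n : Fin 4 → ℤ) : Fin 4 → ℤ :=
  ![m 0 * n 0 + p * (m 1 * n 1) + p' * (m 2 * n 2) + p * p' * (m 3 * n 3),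
    m 0 * n 1 + m 1 * n 0 + p' * (m 2 * n 3 + m 3 * n 2),
    m 0 * n 2 + m 2 * n 0 + p * (m 1 * n 3 + m 3 * n 1),
    m 0 * n 3 + m 3 * n 0 + m 1 * n 2 + m 2 * n 1]

theorem evz_mul {A : Type*} [CommRing A] {p p' : ℤ} {t t' : A} (ht : t ^ 2 = p) (ht' : t' ^ 2 = p')
    (m n : Fin 4 → ℤ) : evz t t' m * evz t t' n = evz t t' (mu p p' m n) := by
  unfold evz mu
  simp only [Matrix.cons_val_zero, Matrix.cons_val_one, Matrix.cons_val_two, Matrix.cons_val_three,
    Matrix.tail_cons, Matrix.head_cons, Matrix.cons_val]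
  push_cast
  linear_combination ((m 1 : A) * n 1 + m 1 * n 3 * t' + m 3 * n 1 * t' + m 3 * n 3 * t' ^ 2) * ht +
    ((m 2 : A) * n 2 + m 2 * n 3 * t + m 3 * n 2 * t + m 3 * n 3 * p) * ht'

theorem evz_add {A : Type*} [CommRing A] (t t' : A) (m n : Fin 4 → ℤ) :
    evz t t' m + evz t t' n = evz t t' (m + n) := by
  unfold evz
  simp only [Pi.add_apply]
  push_cast
  ring

theorem evz_smul {A : Type*} [CommRing A] (t t' : A) (c : ℤ) (m : Fin 4 → ℤ) :
    (c : A) * evz t t' m = evz t t' (c • m) := by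
  unfold evz
  simp only [Pi.smul_apply, smul_eq_mul]
  push_cast
  ring

section Biquad

variable {L : Type*} [Field L] [NumberField L]

theorem evz_inj {p p' : ℕ} (hp : p.Prime) (hp' : p'.Prime) (hne : p ≠ p') {σ σ' : L}
    (hσ : σ ^ 2 = (p : L)) (hσ' : σ' ^ 2 = (p' : L)) {m n : Fin 4 → ℤ}
    (h : evz σ σ' m = evz σ σ' n) : m = n := by
  have h1 := ev_indep hp hp' hne hσ hσ' ((m 0 : ℚ) - n 0) ((m 1 : ℚ) - n 1) ((m 2 : ℚ) - n 2)
    ((m 3 : ℚ) - n 3) (by
      unfold evz at h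
      push_cast
      linear_combination h)
  obtain ⟨a0, a1, a2, a3⟩ := h1
  have b0 : m 0 = n 0 := by exact_mod_cast sub_eq_zero.mp a0
  have b1 : m 1 = n 1 := by exact_mod_cast sub_eq_zero.mp a1
  have b2 : m 2 = n 2 := by exact_mod_cast sub_eq_zero.mp a2
  have b3 : m 3 = n 3 := by exact_mod_cast sub_eq_zero.mp a3
  funext i
  fin_cases i
  · exact b0
  · exact b1
  · exact b2
  · exact b3

theorem bq_basis {p p' : ℕ} (hp : p.Prime) (hp' : p'.Prime) (hne : p ≠ p') {σ σ' : L}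
    (hσ : σ ^ 2 = (p : L)) (hσ' : σ' ^ 2 = (p' : L)) (h4 : finrank ℚ L = 4) :
    ∃ b : Basis (Fin 4) ℚ L, b 0 = 1 ∧ b 1 = σ ∧ b 2 = σ' ∧ b 3 = σ * σ' := by
  have hli : LinearIndependent ℚ ![(1 : L), σ, σ', σ * σ'] := by
    rw [Fintype.linearIndependent_iff]
    intro g hg
    rw [Fin.sum_univ_four] at hg
    have h1 := ev_indep hp hp' hne hσ hσ' (g 0) (g 1) (g 2) (g 3) (by
      simp only [Algebra.smul_def, eq_ratCast] at hg
      simpa using hg)
    obtain ⟨a0, a1, a2, a3⟩ := h1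
    intro i
    fin_cases i
    · exact a0
    · exact a1
    · exact a2
    · exact a3
  refine ⟨basisOfLinearIndependentOfCardEqFinrank hli (by rw [h4]; rfl), ?_, ?_, ?_, ?_⟩ <;>
  · rw [coe_basisOfLinearIndependentOfCardEqFinrank]; rfl

theorem bq_trace {p p' : ℕ} {σ σ' : L}
    (hσ : σ ^ 2 = (p : L)) (hσ' : σ' ^ 2 = (p' : L)) {b : Basis (Fin 4) ℚ L} (h0 : b 0 = 1)
    (h1 : b 1 = σ) (h2 : b 2 = σ') (h3 : b 3 = σ * σ') (x y z w : ℚ) :
    Algebra.trace ℚ L ((x : L) + y * σ + z * σ' + w * (σ * σ')) = 4 * x := by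
  rw [Algebra.trace_eq_matrix_trace b, Matrix.trace, Fin.sum_univ_four]
  simp only [Matrix.diag_apply, Algebra.leftMulMatrix_eq_repr_mul]
  have e0 : ((x : L) + y * σ + z * σ' + w * (σ * σ')) * b 0 =
      x • b 0 + y • b 1 + z • b 2 + w • b 3 := by
    simp only [h0, h1, h2, h3, Algebra.smul_def, eq_ratCast]
    ring
  have e1 : ((x : L) + y * σ + z * σ' + w * (σ * σ')) * b 1 =
      (y * p) • b 0 + x • b 1 + (w * p) • b 2 + z • b 3 := by
    simp only [h0, h1, h2, h3, Algebra.smul_def, eq_ratCast]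
    push_cast
    linear_combination (y + w * σ') * hσ
  have e2 : ((x : L) + y * σ + z * σ' + w * (σ * σ')) * b 2 =
      (z * p') • b 0 + (w * p') • b 1 + x • b 2 + y • b 3 := by
    simp only [h0, h1, h2, h3, Algebra.smul_def, eq_ratCast]
    push_cast
    linear_combination (z + w * σ) * hσ'
  have e3 : ((x : L) + y * σ + z * σ' + w * (σ * σ')) * b 3 =
      (w * p * p') • b 0 + (z * p') • b 1 + (y * p) • b 2 + x • b 3 := by
    simp only [h0, h1, h2, h3, Algebra.smul_def, eq_ratCast]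
    push_cast
    linear_combination (y * σ' + w * σ' ^ 2) * hσ + (z * σ + w * p) * hσ'
  rw [e0, e1, e2, e3]
  simp only [map_add, map_smul, Basis.repr_self, Finsupp.add_apply, Finsupp.smul_apply,
    smul_eq_mul, Finsupp.single_apply]
  simp
  ring

theorem bq_rep {σ σ' : L} {b : Basis (Fin 4) ℚ L} (h0 : b 0 = 1)
    (h1 : b 1 = σ) (h2 : b 2 = σ') (h3 : b 3 = σ * σ') (X : L) :
    ∃ x y z w : ℚ, X = (x : L) + y * σ + z * σ' + w * (σ * σ') := by
  refine ⟨b.repr X 0, b.repr X 1, b.repr X 2, b.repr X 3, ?_⟩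
  conv_lhs => rw [← b.sum_repr X]
  rw [Fin.sum_univ_four, h0, h1, h2, h3]
  simp only [Algebra.smul_def, eq_ratCast, mul_one]

theorem trace_int {X : L} (hX : IsIntegral ℤ X) : ∃ n : ℤ, Algebra.trace ℚ L X = n := by
  have h1 : IsIntegral ℤ (Algebra.trace ℚ L X) := Algebra.isIntegral_trace hX
  obtain ⟨n, hn⟩ := IsIntegrallyClosed.isIntegral_iff.mp h1
  exact ⟨n, by rw [← hn, eq_intCast]⟩

theorem int_coords {p p' : ℕ} (hp : p.Prime) (hp' : p'.Prime) (hne : p ≠ p') {σ σ' : L}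
    (hσ : σ ^ 2 = (p : L)) (hσ' : σ' ^ 2 = (p' : L)) (h4 : finrank ℚ L = 4) {X : L}
    (hX : IsIntegral ℤ X) : ∃ n : Fin 4 → ℤ, ((4 * p * p' : ℤ) : L) * X = evz σ σ' n := by
  obtain ⟨b, h0, h1, h2, h3⟩ := bq_basis hp hp' hne hσ hσ' h4
  obtain ⟨x, y, z, w, hX1⟩ := bq_rep h0 h1 h2 h3 X
  have iσ : IsIntegral ℤ σ := by
    refine IsIntegral.of_pow (n := 2) (by norm_num) ?_
    rw [hσ]
    exact isIntegral_natCast _
  have iσ' : IsIntegral ℤ σ' := by
    refine IsIntegral.of_pow (n := 2) (by norm_num) ?_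
    rw [hσ']
    exact isIntegral_natCast _
  obtain ⟨n0, e0⟩ := trace_int hX
  obtain ⟨n1, e1⟩ := trace_int (hX.mul iσ)
  obtain ⟨n2, e2⟩ := trace_int (hX.mul iσ')
  obtain ⟨n3, e3⟩ := trace_int (hX.mul (iσ.mul iσ'))
  have f0 : 4 * x = n0 := by
    rw [← e0, hX1, bq_trace hσ hσ' h0 h1 h2 h3]
  have f1 : 4 * (p * y) = n1 := by
    rw [← e1, ← bq_trace hσ hσ' h0 h1 h2 h3 (p * y) x (p * w) z, hX1]
    congr 1
    push_cast
    linear_combination (-y - w * σ') * hσ
  have f2 : 4 * (p' * z) = n2 := by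
    rw [← e2, ← bq_trace hσ hσ' h0 h1 h2 h3 (p' * z) (p' * w) x y, hX1]
    congr 1
    push_cast
    linear_combination (-z - w * σ) * hσ'
  have f3 : 4 * (p * p' * w) = n3 := by
    rw [← e3, ← bq_trace hσ hσ' h0 h1 h2 h3 (p * p' * w) (p' * z) (p * y) x, hX1]
    congr 1
    push_cast
    linear_combination (-y * σ' - w * σ' ^ 2) * hσ - (z * σ + w * p) * hσ'
  refine ⟨![p * p' * n0, p' * n1, p * n2, n3], ?_⟩
  have g0 : (n0 : L) = 4 * x := by exact_mod_cast congrArg (fun t : ℚ => (t : L)) f0.symm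
  have g1 : (n1 : L) = 4 * (p * y) := by exact_mod_cast congrArg (fun t : ℚ => (t : L)) f1.symm
  have g2 : (n2 : L) = 4 * (p' * z) := by exact_mod_cast congrArg (fun t : ℚ => (t : L)) f2.symm
  have g3 : (n3 : L) = 4 * (p * p' * w) := by
    exact_mod_cast congrArg (fun t : ℚ => (t : L)) f3.symm
  unfold evz
  simp only [Matrix.cons_val_zero, Matrix.cons_val_one, Matrix.cons_val_two, Matrix.cons_val_three,
    Matrix.tail_cons, Matrix.head_cons, Matrix.cons_val]
  rw [hX1]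
  push_cast
  rw [g0, g1, g2, g3]
  ring

/-- a ring homomorphism of the ring of integers into a field is given by the images of the two
square roots -/
theorem exists_hom {p p' : ℕ} (hp : p.Prime) (hp' : p'.Prime) (hne : p ≠ p') {σ σ' : L}
    (hσ : σ ^ 2 = (p : L)) (hσ' : σ' ^ 2 = (p' : L)) (h4 : finrank ℚ L = 4) {k : Type*} [Field k]
    {t t' : k} (ht : t ^ 2 = (p : k)) (ht' : t' ^ 2 = (p' : k)) (hN : ((4 * p * p' : ℤ) : k) ≠ 0) :
    ∃ φ : 𝓞 L →+* k, ∀ (X : 𝓞 L) (n : Fin 4 → ℤ),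
      ((4 * p * p' : ℤ) : L) * X = evz σ σ' n → ((4 * p * p' : ℤ) : k) * φ X = evz t t' n := by
  have hc : ∀ X : 𝓞 L, ∃ n : Fin 4 → ℤ, ((4 * p * p' : ℤ) : L) * X = evz σ σ' n := fun X =>
    int_coords hp hp' hne hσ hσ' h4 X.isIntegral_coe
  choose c hc using hc
  set N : ℤ := 4 * p * p' with hNdef
  have inj := @evz_inj L _ _ p p' hp hp' hne σ σ' hσ hσ'
  have hσz : σ ^ 2 = ((p : ℤ) : L) := by rw [hσ]; push_cast; rfl
  have hσz' : σ' ^ 2 = ((p' : ℤ) : L) := by rw [hσ']; push_cast; rfl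
  have htz : t ^ 2 = ((p : ℤ) : k) := by rw [ht]; push_cast; rfl
  have htz' : t' ^ 2 = ((p' : ℤ) : k) := by rw [ht']; push_cast; rfl
  have hadd : ∀ X Y, c (X + Y) = c X + c Y := by
    intro X Y
    apply inj
    rw [← hc, ← evz_add, ← hc, ← hc]
    push_cast
    ring
  have hmul : ∀ X Y, N • c (X * Y) = mu p p' (c X) (c Y) := by
    intro X Y
    apply inj
    rw [← evz_smul, ← hc, ← evz_mul hσz hσz', ← hc, ← hc]
    push_cast
    ring
  have hone : c 1 = ![N, 0, 0, 0] := by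
    apply inj
    rw [← hc]
    unfold evz
    simp
  have hzero : c 0 = 0 := by
    apply inj
    rw [← hc]
    unfold evz
    simp
  refine ⟨{ toFun := fun X => (N : k)⁻¹ * evz t t' (c X)
            map_one' := ?_
            map_mul' := ?_
            map_zero' := ?_
            map_add' := ?_ }, ?_⟩
  · rw [hone]
    unfold evz
    simp only [Matrix.cons_val_zero, Matrix.cons_val_one, Matrix.cons_val_two,
      Matrix.cons_val_three, Matrix.tail_cons, Matrix.head_cons, Matrix.cons_val, Int.cast_zero,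
      zero_mul, add_zero]
    exact inv_mul_cancel₀ hN
  · intro X Y
    have h1 : (N : k) * evz t t' (c (X * Y)) = evz t t' (c X) * evz t t' (c Y) := by
      rw [evz_mul htz htz', evz_smul, hmul]
    field_simp
    exact h1
  · rw [hzero]
    unfold evz
    simp
  · intro X Y
    rw [hadd, ← evz_add]
    ring
  · intro X n hn
    have h1 : c X = n := by
      apply inj
      rw [← hc, hn]
    change (N : k) * ((N : k)⁻¹ * evz t t' (c X)) = _
    rw [h1, mul_inv_cancel_left₀ hN]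

end Biquad

end Pool.Agent.J4H42.GP
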